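import Pool.Agent.W192.WO.Parts
import Pool.Agent.W283.HK.AFE0
import Pool.Agent.W440.TW.Twist

/-!
# WO-AFE : continuation and value at `1/2` of the twisted L-function, weight one
-/

set_option autoImplicit false

open Complex Filter Topology Set UpperHalfPlane MatrixGroups CongruenceSubgroup ZMod

namespace Pool.Agent.W435.WO

open Pool.Agent.W192.HK (VH V0)
open Pool.Agent.W192.CY (cf)
open Pool.Agent.W192.WO (Newf1 W_TWIST W_EUL W_AFE)
open Pool.Agent.W283.HK.AFE0 (mellinH ext_series)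
open Pool.Agent.W108.TW
open Pool.Agent.W440.TW

lemma cf_zero {N : ℕ} {k : ℤ} (f : CuspForm (Gamma1 N : Subgroup (GL (Fin 2) ℝ)) k) :
    cf f 0 = 0 := by
  have h1 : (1 : ℝ) ∈ (Gamma1 N : Subgroup (GL (Fin 2) ℝ)).strictPeriods := by simp
  exact CuspFormClass.qExpansion_coeff_zero (Γ := (Gamma1 N : Subgroup (GL (Fin 2) ℝ)))
    (k := k) f one_pos h1

theorem w_afe (h1 : W_TWIST) (h2 : W_EUL) : W_AFE := by
  intro N _ η f w hf q _ χ hco hpr
  have hNn : 0 < N := Nat.pos_of_ne_zero (NeZero.ne N)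
  have hN : (0 : ℝ) < N := by exact_mod_cast hNn
  have hq : (0 : ℝ) < q := by exact_mod_cast Nat.pos_of_ne_zero (NeZero.ne q)
  have hsN : 0 < Real.sqrt N := Real.sqrt_pos.2 hN
  have hc0 : cf f 0 = 0 := cf_zero f
  have hsum0 : ∀ s : ℂ, 1 < s.re →
      Summable (fun n : ℕ => ‖χ (n : ZMod q) * cf f n * (n : ℂ) ^ (-s)‖) :=
    fun s hs => (h2 N η f w hf q χ s hs).1
  -- the coefficient bound
  obtain ⟨C, hC⟩ : ∃ C : ℝ, ∀ n : ℕ, 1 ≤ n →
      ‖χ (n : ZMod q) * cf f n‖ ≤ C * (n : ℝ) ^ (2 : ℝ) := by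
    have hs := hsum0 ((2 : ℝ) : ℂ) (by rw [Complex.ofReal_re]; norm_num)
    refine ⟨∑' n : ℕ, ‖χ (n : ZMod q) * cf f n * (n : ℂ) ^ (-(((2 : ℝ) : ℂ)))‖,
      fun n hn => ?_⟩
    have hn' : (0 : ℝ) < n := by exact_mod_cast hn
    have h3 := hs.le_tsum n (fun j _ => norm_nonneg _)
    have h4 : ‖(n : ℂ) ^ (-(((2 : ℝ) : ℂ)))‖ = (n : ℝ) ^ (-(2 : ℝ)) := by
      have := Complex.norm_cpow_eq_rpow_re_of_pos hn' (-(((2 : ℝ) : ℂ)))
      rw [Complex.ofReal_natCast] at this
      rw [this, Complex.neg_re, Complex.ofReal_re]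
    rw [norm_mul, h4] at h3
    have h5 : (n : ℝ) ^ (-(2 : ℝ)) * (n : ℝ) ^ (2 : ℝ) = 1 := by
      rw [← Real.rpow_add hn', neg_add_cancel, Real.rpow_zero]
    calc ‖χ (n : ZMod q) * cf f n‖
        = ‖χ (n : ZMod q) * cf f n‖ * (n : ℝ) ^ (-(2 : ℝ)) * (n : ℝ) ^ (2 : ℝ) := by
          rw [mul_assoc, h5, mul_one]
      _ ≤ _ := mul_le_mul_of_nonneg_right h3 (by positivity)
  set R : ℝ := Real.sqrt N * q with hR
  have hRp : 0 < R := by positivity
  set W : ℂ := (w * η (q : ZMod N)) * χ (N : ZMod q) * gaussSum χ (stdAddChar (N := q)) ^ 2 / q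
    with hW
  have hW0 : W ≠ 0 := by
    have g1 : w ≠ 0 := by
      intro h
      have := hf.norm
      rw [h, norm_zero] at this
      exact zero_ne_one this
    have g1' : η (q : ZMod N) ≠ 0 := by
      have hu : IsUnit (q : ZMod N) := (ZMod.isUnit_iff_coprime q N).2 hco
      exact (hu.map η).ne_zero
    have g2 : χ (N : ZMod q) ≠ 0 := by
      have hu : IsUnit (N : ZMod q) := (ZMod.isUnit_iff_coprime N q).2 hco.symm
      exact (hu.map χ).ne_zero
    have g3 := gauss_ne_zero χ hpr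
    have g4 : (q : ℂ) ≠ 0 := Nat.cast_ne_zero.2 (NeZero.ne q)
    rw [hW]
    exact div_ne_zero (mul_ne_zero (mul_ne_zero (mul_ne_zero g1 g1') g2) (pow_ne_zero 2 g3)) g4
  obtain ⟨F, hFd, hFs, hFc⟩ := mellinH
    (b := fun n => χ (n : ZMod q) * cf f n)
    (m := 2) (C := C) hRp (by rw [hc0, mul_zero])
    (by norm_num) hC hW0
    (fun t ht => h1 N η f w hf q χ hco hpr t ht)
  refine ⟨F, hFd, fun s hs => ?_, fun X Y hX hY hXY => ?_⟩
  · -- continuation of the series
    refine ext_series F hFd (fun n => χ (n : ZMod q) * cf f n) ?_ hsum0 (2 + 2)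
      (fun s hs => hFs s hs) s hs
    simp only [hc0, mul_zero]
  · have hXY' : X * Y = R ^ 2 / (4 * Real.pi ^ 2) := by
      rw [hXY, hR, mul_pow, Real.sq_sqrt hN.le]
    rw [hFc X Y hX hY hXY']
    have hsq : ∀ n : ℕ, 0 < n → (Real.sqrt n : ℂ) / (n : ℂ) = 1 / (Real.sqrt n : ℂ) := by
      intro n hn
      have hn' : (0 : ℝ) < n := by exact_mod_cast hn
      have e1 : Real.sqrt n / n = 1 / Real.sqrt n := Real.sqrt_div_self'
      have e2 := congrArg (fun x : ℝ => (x : ℂ)) e1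
      push_cast at e2
      exact e2
    congr 1
    · refine tsum_congr fun n => ?_
      rcases Nat.eq_zero_or_pos n with rfl | hn
      · simp only [hc0]; simp
      · calc χ (n : ZMod q) * cf f n / (Real.sqrt n : ℂ) * (V0 (n / X) : ℂ)
            = χ (n : ZMod q) * cf f n * (1 / (Real.sqrt n : ℂ)) * (V0 (n / X) : ℂ) := by ring
          _ = χ (n : ZMod q) * cf f n * ((Real.sqrt n : ℂ) / (n : ℂ)) * (V0 (n / X) : ℂ) := by
              rw [hsq n hn]
          _ = _ := by ring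
    · congr 1
      refine tsum_congr fun n => ?_
      rcases Nat.eq_zero_or_pos n with rfl | hn
      · simp only [hc0]; simp
      · rw [map_mul, map_mul, Complex.conj_ofReal]
        calc (starRingEnd ℂ) (χ (n : ZMod q)) * (starRingEnd ℂ) (cf f n) / (Real.sqrt n : ℂ) *
              (V0 (n / Y) : ℂ)
            = (starRingEnd ℂ) (χ (n : ZMod q)) * (starRingEnd ℂ) (cf f n) *
              (1 / (Real.sqrt n : ℂ)) * (V0 (n / Y) : ℂ) := by ring
          _ = (starRingEnd ℂ) (χ (n : ZMod q)) * (starRingEnd ℂ) (cf f n) *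
              ((Real.sqrt n : ℂ) / (n : ℂ)) * (V0 (n / Y) : ℂ) := by rw [hsq n hn]
          _ = _ := by ring

end Pool.Agent.W435.WO
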